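import Pool.Agent.H83.AT.Targets

open CategoryTheory CategoryTheory.Limits TopologicalSpace Topology Set Opposite

namespace Pool.Agent.H57.AT

open Pool.Agent.H83.AT Pool.Agent.H96.AL Pool.Agent.H85.AU

variable {F : Type} [Field F] {X : TopCat.{0}}

lemma smz {A B : Sh F X} (x : X) (s : Stk A x) : sm (0 : A ⟶ B) x s = 0 := by
  obtain ⟨V, hx, t, rfl⟩ := exists_gm A s
  rw [← gm_ap]
  have : ap (0 : A ⟶ B) V t = 0 := rfl
  rw [this, map_zero]

lemma sma {A B : Sh F X} (f g : A ⟶ B) (x : X) (s : Stk A x) :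
    sm (f + g) x s = sm f x s + sm g x s := by
  obtain ⟨V, hx, t, rfl⟩ := exists_gm A s
  rw [← gm_ap, ← gm_ap, ← gm_ap]
  have : ap (f + g) V t = ap f V t + ap g V t := rfl
  rw [this, map_add]

lemma sms {A B : Sh F X} {r : ℕ} (f : Fin r → (A ⟶ B)) (x : X) (s : Stk A x) :
    sm (∑ a, f a) x s = ∑ a, sm (f a) x s := by
  have key : ∀ T : Finset (Fin r), sm (∑ a ∈ T, f a) x s = ∑ a ∈ T, sm (f a) x s := by
    intro T
    induction T using Finset.induction_on with
    | empty =>
      rw [Finset.sum_empty, Finset.sum_empty]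
      exact smz x s
    | insert a T ha ih =>
      rw [Finset.sum_insert ha, Finset.sum_insert ha, sma, ih]
  exact key Finset.univ

lemma stk_isZero {A : Sh F X} (h : IsZero A) (x : X) (g : Stk A x) : g = 0 := by
  have h1 : 𝟙 A = 0 := (IsZero.iff_id_eq_zero A).1 h
  have h2 := sm_id A x g
  rw [h1] at h2
  rw [← h2]
  exact smz x g

/-- `A` is zero outside the stratum -/
lemma stk_zero_of (Kj K : Opens X) (A : Sh F X) (h1 : IsIso (ic Kj A)) (h2 : IsZero (cutSh K A))
    (y : X) (hy : y ∉ Kj ∨ y ∈ K) (g : Stk A y) : g = 0 := by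
  rcases hy with hy | hy
  · obtain ⟨g', rfl⟩ := ((isIso_iff _).1 h1 y).2 g
    rw [stk_cut_eq_zero A hy g', map_zero]
  · obtain ⟨g', rfl⟩ := sm_ic_surj A hy g
    rw [stk_isZero h2 y g', map_zero]

/-- `1 ∈ F_U` generates the stalks -/
lemma eU_bij (hKK : T_KK) (U : Opens X) (y : X) (hy : y ∈ U) :
    Function.Bijective (fun c : F => c • gm (cutSh U (one F X)) hy (eU F U)) := by
  have hb := sm_ic_bij (one F X) hy
  have hk := (hKK F X (ModuleCat.of F F)).1 y trivial
  have e : ∀ c : F, sm (ic U (one F X)) y (c • gm (cutSh U (one F X)) hy (eU F U)) =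
      gm (constSh F X (ModuleCat.of F F)) (x := y) (V := ⊤) trivial
        (kc F X (ModuleCat.of F F) c) := by
    intro c
    rw [map_smul, ← gm_ap, ap_ic_eU, gm_rs]
    have h1 : kc F X (ModuleCat.of F F) c = c • kc F X (ModuleCat.of F F) (1 : F) := by
      have h2 := (kc F X (ModuleCat.of F F)).map_smul c (1 : F)
      have h3 : (c • (1 : F)) = c := by rw [smul_eq_mul, mul_one]
      rw [← h2]
      exact congrArg (kc F X (ModuleCat.of F F)) h3.symm
    have h4 := (gm (constSh F X (ModuleCat.of F F)) (x := y) (V := ⊤) trivial).map_smul c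
      (kc F X (ModuleCat.of F F) (1 : F))
    exact h4.symm.trans (congrArg _ h1.symm)
  constructor
  · intro c d h
    apply hk.1
    have h5 := e c
    have h6 := e d
    exact h5.symm.trans ((congrArg (sm (ic U (one F X)) y) h).trans h6)
  · intro g
    obtain ⟨c, hc⟩ := hk.2 (sm (ic U (one F X)) y g)
    exact ⟨c, hb.1 ((e c).trans hc)⟩

/-- the functor `A ↦ A_U` on stalks: additive -/
lemma cm_comp {U : Opens X} {A B C : Sh F X} (f : A ⟶ B) (g : B ⟶ C) (y : X)
    (z : Stk (cutSh U A) y) :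
    sm (cutMap (le_refl U) (f ≫ g)) y z =
      sm (cutMap (le_refl U) g) y (sm (cutMap (le_refl U) f) y z) := by
  have h : cutMap (le_refl U) (f ≫ g) = cutMap (le_refl U) f ≫ cutMap (le_refl U) g := by
    rw [← cancel_mono (ic U C)]
    simp
  rw [h, sm_comp]

lemma cm_id {U : Opens X} {A : Sh F X} (y : X) (z : Stk (cutSh U A) y) :
    sm (cutMap (le_refl U) (𝟙 A)) y z = z := by
  have h : cutMap (le_refl U) (𝟙 A) = 𝟙 (cutSh U A) := by
    rw [← cancel_mono (ic U A)]
    simp
  rw [h, sm_id]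

lemma cm_zero {U : Opens X} {A B : Sh F X} (y : X) (z : Stk (cutSh U A) y) :
    sm (cutMap (le_refl U) (0 : A ⟶ B)) y z = 0 := by
  have h : cutMap (le_refl U) (0 : A ⟶ B) = 0 := by
    rw [← cancel_mono (ic U B)]
    simp
  rw [h]
  exact smz y z

lemma cm_sum {U : Opens X} {A B : Sh F X} {r : ℕ} (f : Fin r → (A ⟶ B)) (y : X)
    (z : Stk (cutSh U A) y) :
    sm (cutMap (le_refl U) (∑ a, f a)) y z = ∑ a, sm (cutMap (le_refl U) (f a)) y z := by
  have h : cutMap (le_refl U) (∑ a, f a) = ∑ a, cutMap (le_refl U) (f a) := by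
    rw [← cancel_mono (ic U B), Preadditive.sum_comp, cutMap_ic, Preadditive.comp_sum]
    rfl
  rw [h]
  exact sms _ y z

/-- the cokernel sequence of `F_K → F`, restricted to `U` -/
lemma cut_short (hXC : T_XC) (U K : Opens X) (w' : cutMap (le_refl U) (ic K (one F X)) ≫
      cutMap (le_refl U) (cokernel.π (ic K (one F X))) = 0) :
    (ShortComplex.mk (cutMap (le_refl U) (ic K (one F X)))
      (cutMap (le_refl U) (cokernel.π (ic K (one F X)))) w').ShortExact := by
  have hS0 : (ShortComplex.mk (ic K (one F X)) (cokernel.π (ic K (one F X)))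
      (cokernel.condition _)).ShortExact := by
    refine ShortComplex.ShortExact.mk' (ShortComplex.exact_cokernel _) ?_ ?_
    · exact ic_mono K (one F X)
    · infer_instance
  exact (hXC F X U).shortExact hS0 w'

lemma cut_comp_zero (U K : Opens X) : cutMap (le_refl U) (ic K (one F X)) ≫
      cutMap (le_refl U) (cokernel.π (ic K (one F X))) = 0 := by
  rw [← cancel_mono (ic U _)]
  simp

/-- the stalks of `Q_U` -/
lemma qy_bij (hXC : T_XC) (hKK : T_KK) (U K : Opens X) (y : X) (hy : y ∈ U) (hK : y ∉ K) :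
    Function.Bijective (fun c : F => c •
      sm (cutMap (le_refl U) (cokernel.π (ic K (one F X)))) y
        (gm (cutSh U (one F X)) hy (eU F U))) := by
  have hS := (shortExact_iff _ _ _).1 (cut_short hXC U K (cut_comp_zero (F := F) U K))
  have hb := eU_bij (F := F) hKK U y hy
  have e : ∀ c : F, sm (cutMap (le_refl U) (cokernel.π (ic K (one F X)))) y
      (c • gm (cutSh U (one F X)) hy (eU F U)) = c •
      sm (cutMap (le_refl U) (cokernel.π (ic K (one F X)))) y
        (gm (cutSh U (one F X)) hy (eU F U)) := fun c => map_smul _ _ _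
  have hinj : Function.Injective
      (sm (cutMap (le_refl U) (cokernel.π (ic K (one F X)))) y) := by
    rw [← LinearMap.ker_eq_bot, LinearMap.ker_eq_bot']
    intro g hg
    obtain ⟨t, rfl⟩ := hS.2.2 y g hg
    have ht : t = 0 := by
      apply sm_ic_inj U _ y
      rw [map_zero]
      exact stk_cut_eq_zero (one F X) hK _
    rw [ht, map_zero]
  constructor
  · intro c d h
    apply hb.1
    apply hinj
    exact (e c).trans (h.trans (e d).symm)
  · intro g
    obtain ⟨g', rfl⟩ := hS.2.1 y g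
    obtain ⟨c, rfl⟩ := hb.2 g'
    exact ⟨c, (e c).symm⟩

lemma q_zero (U K : Opens X) (y : X) (hK : y ∈ K)
    (g : Stk (cutSh U (cokernel (ic K (one F X)))) y) : g = 0 := by
  apply sm_ic_inj U _ y
  rw [map_zero]
  have hsurj : Function.Surjective (sm (cokernel.π (ic K (one F X))) y) :=
    (epi_iff _).1 inferInstance y
  obtain ⟨g1, hg1⟩ := hsurj (sm (ic U _) y g)
  obtain ⟨g2, rfl⟩ := sm_ic_surj (one F X) hK g1
  rw [← hg1, ← sm_comp, cokernel.condition]
  exact smz y g2

lemma core_iso (S : Set X) (U : Opens X) (A Q : Sh F X) (r : ℕ) (ii : Fin r → (Q ⟶ pw Q r))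
    (pp : Fin r → (pw Q r ⟶ Q)) (hip : ∀ a b, ii a ≫ pp b = if a = b then 𝟙 Q else 0)
    (hsum : ∑ a, pp a ≫ ii a = 𝟙 (pw Q r)) (ψ : Fin r → (cutSh U Q ⟶ A))
    (h1 : ∀ y ∈ U, y ∈ S → ∃ qy : Stk (cutSh U Q) y, Function.Bijective (fun c : F => c • qy) ∧
      IsBas (F := F) (fun i => sm (ψ i) y qy))
    (h2 : ∀ y ∈ U, y ∉ S → (∀ g : Stk A y, g = 0) ∧ ∀ g : Stk (cutSh U Q) y, g = 0) :
    Nonempty (cutSh U A ≅ cutSh U (pw Q r)) := by
  obtain ⟨Θ, hΘ⟩ : ∃ Θ : cutSh U (pw Q r) ⟶ A,
      Θ = ∑ a, cutMap (le_refl U) (pp a) ≫ ψ a := ⟨_, rfl⟩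
  have hΘs : ∀ (y : X) (z : Stk (cutSh U (pw Q r)) y),
      sm Θ y z = ∑ a, sm (ψ a) y (sm (cutMap (le_refl U) (pp a)) y z) := by
    intro y z
    rw [hΘ, sms]
    exact Finset.sum_congr rfl (fun a _ => sm_comp _ _ _ _)
  have hz : ∀ (y : X) (z : Stk (cutSh U (pw Q r)) y),
      z = ∑ a, sm (cutMap (le_refl U) (ii a)) y (sm (cutMap (le_refl U) (pp a)) y z) := by
    intro y z
    have h1 := cm_id (U := U) (A := pw Q r) y z
    rw [← hsum, cm_sum] at h1
    exact h1.symm.trans (Finset.sum_congr rfl (fun a _ => cm_comp (pp a) (ii a) y z))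
  have hmem : ∀ V (s : Sec (cutSh U (pw Q r)) V), ap Θ V s ∈ cutSec U A V := by
    intro V s y hy hyU
    rw [gm_ap, stk_cut_eq_zero _ hyU (gm _ hy s), map_zero]
  have hbij : ∀ y ∈ U, Function.Bijective (sm Θ y) := by
    intro y hy
    by_cases h0 : y ∈ S
    · obtain ⟨qy, hq, hB⟩ := h1 y hy h0
      have hval : ∀ (z : Stk (cutSh U (pw Q r)) y) (c : Fin r → F),
          (∀ a, sm (cutMap (le_refl U) (pp a)) y z = c a • qy) →
          sm Θ y z = ∑ a, c a • sm (ψ a) y qy := by
        intro z c hc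
        rw [hΘs]
        apply Finset.sum_congr rfl
        intro a _
        rw [hc a, map_smul]
      constructor
      · rw [← LinearMap.ker_eq_bot, LinearMap.ker_eq_bot']
        intro z hz0
        choose c hc using fun a => hq.2 (sm (cutMap (le_refl U) (pp a)) y z)
        have hv := hval z c (fun a => (hc a).symm)
        rw [hz0] at hv
        have hc0 := Fintype.linearIndependent_iff.1 hB.1 c hv.symm
        rw [hz y z]
        apply Finset.sum_eq_zero
        intro a _
        have h3 : sm (cutMap (le_refl U) (pp a)) y z = 0 := by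
          have h4 : c a • qy = 0 := by
            rw [hc0 a]
            exact zero_smul F _
          exact (hc a).symm.trans h4
        rw [h3, map_zero]
      · intro v
        have hv : v ∈ Submodule.span F (Set.range (fun i => sm (ψ i) y qy)) := by
          rw [hB.2]
          trivial
        obtain ⟨c, hc⟩ := (Submodule.mem_span_range_iff_exists_fun F).1 hv
        refine ⟨∑ a, sm (cutMap (le_refl U) (ii a)) y (c a • qy), ?_⟩
        rw [hval _ c, hc]
        intro b
        rw [map_sum]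
        have h3 : ∀ a, sm (cutMap (le_refl U) (pp b)) y
            (sm (cutMap (le_refl U) (ii a)) y (c a • qy)) = if a = b then c a • qy else 0 := by
          intro a
          rw [← cm_comp, hip a b]
          by_cases hab : a = b
          · rw [if_pos hab, if_pos hab, cm_id]
          · rw [if_neg hab, if_neg hab, cm_zero]
        refine (Finset.sum_congr rfl (fun a _ => h3 a)).trans ?_
        exact (Finset.sum_ite_eq' Finset.univ b (fun a => c a • qy)).trans
          (if_pos (Finset.mem_univ b))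
    · obtain ⟨hA, hQ⟩ := h2 y hy h0
      have hP : ∀ z : Stk (cutSh U (pw Q r)) y, z = 0 := by
        intro z
        rw [hz y z]
        apply Finset.sum_eq_zero
        intro a _
        have h3 : sm (cutMap (le_refl U) (pp a)) y z = 0 := hQ _
        rw [h3, map_zero]
      constructor
      · intro a b _
        rw [hP a, hP b]
      · intro v
        exact ⟨0, by rw [hA v, map_zero]⟩
  have hiso : IsIso (cutLift U Θ hmem) := by
    rw [isIso_iff]
    intro y
    by_cases hy : y ∈ U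
    · have h1 := hbij y hy
      have h2 := sm_ic_bij A hy
      have h3 : ∀ z, sm (ic U A) y (sm (cutLift U Θ hmem) y z) = sm Θ y z := by
        intro z
        rw [← sm_comp, cutLift_ic]
      constructor
      · intro a b hab
        apply h1.1
        rw [← h3, ← h3, hab]
      · intro g
        obtain ⟨z, hz⟩ := h1.2 (sm (ic U A) y g)
        exact ⟨z, h2.1 (by rw [h3, hz])⟩
    · constructor
      · intro a b _
        rw [stk_cut_eq_zero _ hy a, stk_cut_eq_zero _ hy b]
      · intro g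
        exact ⟨0, by rw [stk_cut_eq_zero _ hy g, map_zero]⟩
  exact ⟨(asIso (cutLift U Θ hmem)).symm⟩

lemma cl_core (hXC : T_XC) (hKK : T_KK) (hKU : T_KU) (hPW : T_PW) (K Kj : Opens X)
    (Z : ℕ → Set X) (j : ℕ) (hKm : ∀ y, y ∈ K ↔ y ∉ Z (j + 1)) (hKjm : ∀ y, y ∈ Kj ↔ y ∉ Z j)
    (N : ℕ) (A : Sh F X) (hCn : Cn Z N A) (hI : IsIso (ic Kj A)) (hZe : IsZero (cutSh K A))
    (x : X) (hx : x ∈ Z (j + 1) \ Z j) : ∃ U : Opens X, x ∈ U ∧ ∃ r ≤ N,
    Nonempty (cutSh U A ≅ cutSh U (pw (cokernel (ic K (one F X))) r)) := by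
  obtain ⟨V0, r, s0, hxV, hr, hbas⟩ := hCn j x hx
  have hi : V0 ⊓ Kj ≤ V0 := inf_le_left
  have hxU : x ∈ V0 ⊓ Kj := ⟨hxV, (hKjm x).2 hx.2⟩
  refine ⟨V0 ⊓ Kj, hxU, r, hr, ?_⟩
  have hA0 : ∀ y : X, y ∉ Z (j + 1) \ Z j → ∀ g : Stk A y, g = 0 := by
    intro y hy g
    apply stk_zero_of Kj K A hI hZe y
    by_cases h1 : y ∈ Z (j + 1)
    · left
      rw [hKjm]
      intro h2
      exact hy ⟨h1, h2⟩
    · right
      rw [hKm]
      exact h1
  obtain ⟨U, hU⟩ : ∃ U : Opens X, U = V0 ⊓ Kj := ⟨_, rfl⟩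
  rw [← hU] at hxU hi ⊢
  have hUj : ∀ y ∈ U, y ∉ Z j := by
    intro y hy
    rw [hU] at hy
    exact (hKjm y).1 hy.2
  have hbU : ∀ (y : X) (hy : y ∈ U), y ∈ Z (j + 1) →
      IsBas (F := F) (fun i => gm A hy (rs A hi (s0 i))) := by
    intro y hy h1
    have h2 := hbas y (hi hy) ⟨h1, hUj y hy⟩
    have h3 : (fun i => gm A hy (rs A hi (s0 i))) = fun i => gm A (hi hy) (s0 i) := by
      funext i
      exact gm_rs A hi hy (s0 i)
    rw [h3]
    exact h2
  -- the morphisms `φ`
  have hφ : ∀ i, ∃ φ : cutSh U (one F X) ⟶ A, ap φ U (eU F U) = rs A hi (s0 i) :=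
    fun i => (hKU F X U A).2 (rs A hi (s0 i))
  choose φ hφ using hφ
  have hS := cut_short (F := F) hXC U K (cut_comp_zero U K)
  have hker : ∀ i, cutMap (le_refl U) (ic K (one F X)) ≫ φ i = 0 := by
    intro i
    apply hom_ext
    intro y g
    rw [sm_comp, smz]
    by_cases hy : y ∈ K
    · exact hA0 y (fun h => (hKm y).1 hy h.1) _
    · have hg : g = 0 := by
        apply sm_ic_inj U _ y
        rw [map_zero]
        exact stk_cut_eq_zero (one F X) hy _
      rw [hg, map_zero, map_zero]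
  have hψ : ∀ i, ∃ ψ : cutSh U (cokernel (ic K (one F X))) ⟶ A,
      cutMap (le_refl U) (cokernel.π (ic K (one F X))) ≫ ψ = φ i := by
    intro i
    have : Epi (cutMap (le_refl U) (cokernel.π (ic K (one F X)))) := hS.epi_g
    exact ⟨hS.exact.desc (φ i) (hker i), hS.exact.g_desc (φ i) (hker i)⟩
  choose ψ hψ using hψ
  obtain ⟨ii, pp, hip, hsum⟩ := hPW (Sh F X) (cokernel (ic K (one F X))) r
  refine core_iso (Z (j + 1)) U A _ r ii pp hip hsum ψ ?_ ?_
  · intro y hy h1
    have hyK : y ∉ K := fun h => (hKm y).1 h h1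
    refine ⟨_, qy_bij (F := F) hXC hKK U K y hy hyK, ?_⟩
    have hB := hbU y hy h1
    have e : (fun i => sm (ψ i) y (sm (cutMap (le_refl U) (cokernel.π (ic K (one F X)))) y
        (gm (cutSh U (one F X)) hy (eU F U)))) = fun i => gm A hy (rs A hi (s0 i)) := by
      funext i
      rw [← sm_comp, hψ, ← gm_ap, hφ]
    rw [e]
    exact hB
  · intro y hy h1
    exact ⟨hA0 y (fun h => h1 h.1), q_zero U K y ((hKm y).2 h1)⟩

theorem cl (hXC : T_XC) (hKK : T_KK) (hKU : T_KU) (hPW : T_PW) : T_CL := by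
  intro F _ X Z hZ hm N A j hCn hI hZe x hx
  exact cl_core hXC hKK hKU hPW (co (X := X) hZ (j + 1)) (co (X := X) hZ j) Z j
    (fun _ => Iff.rfl) (fun _ => Iff.rfl) N A hCn hI hZe x hx

end Pool.Agent.H57.AT
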