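import Pool.Agent.H83.AT.Targets

open CategoryTheory CategoryTheory.Limits TopologicalSpace Topology Set Opposite

namespace Pool.Agent.H57.AT

open Pool.Agent.H83.AT Pool.Agent.H96.AL

variable {F : Type} [Field F] {W : TopCat.{0}}

/-- a lift of `c` along the fibre over `x`, between `a` and `b` -/
def LiftP {B C : Sh F (cyl W)} (g : B ⟶ C) {N : Opens W} {x : W}
    (c : Sec C (pre (pr W) N)) (a b : unitInterval) : Prop :=
  ∃ (O : Opens (cyl W)) (u : Sec B O), (∀ t ∈ Icc a b, ((x, t) : cyl W) ∈ O) ∧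
    ∀ t ∈ Icc a b, ∀ (h : ((x, t) : cyl W) ∈ O) (h' : ((x, t) : cyl W) ∈ pre (pr W) N),
      sm g ((x, t) : cyl W) (gm B h u) = gm C h' c

lemma liftP_trans (hGL : T_GL) {A B C : Sh F (cyl W)} (f : A ⟶ B) (g : B ⟶ C) (w : f ≫ g = 0)
    (hS : (ShortComplex.mk f g w).ShortExact) (hPE : PE A) {N : Opens W} {x : W} (hx : x ∈ N)
    (c : Sec C (pre (pr W) N)) (a b e : unitInterval) (hab : a ≤ b) (hbe : b ≤ e)
    (h1 : LiftP g (x := x) c a b) (h2 : LiftP g (x := x) c b e) :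
    LiftP g (x := x) c a e := by
  obtain ⟨O, u, hO, hu⟩ := h1
  obtain ⟨O', u', hO', hu'⟩ := h2
  have hex := (shortExact_iff f g w).1 hS
  have hb : ((x, b) : cyl W) ∈ O := hO b ⟨hab, le_rfl⟩
  have hb' : ((x, b) : cyl W) ∈ O' := hO' b ⟨le_rfl, hbe⟩
  have hbN : ((x, b) : cyl W) ∈ pre (pr W) N := hx
  have hd : sm g ((x, b) : cyl W) (gm B hb u - gm B hb' u') = 0 := by
    rw [map_sub, hu b ⟨hab, le_rfl⟩ hb hbN, hu' b ⟨le_rfl, hbe⟩ hb' hbN, sub_self]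
  obtain ⟨a0, ha0⟩ := hex.2.2 _ _ hd
  obtain ⟨N1, hx1, s, hs⟩ := hPE x b a0
  have hi1 : O' ⊓ pre (pr W) N1 ≤ O' := inf_le_left
  have hi2 : O' ⊓ pre (pr W) N1 ≤ pre (pr W) N1 := inf_le_right
  set u'' : Sec B (O' ⊓ pre (pr W) N1) :=
    rs B hi1 u' + ap f (O' ⊓ pre (pr W) N1) (rs A hi2 s) with hu''
  have key : ∀ (t : unitInterval) (h : ((x, t) : cyl W) ∈ O' ⊓ pre (pr W) N1),
      gm B h u'' = gm B (hi1 h) u' + sm f ((x, t) : cyl W) (gm A (hi2 h) s) := by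
    intro t h
    rw [hu'', map_add, gm_rs, gm_ap, gm_rs]
  obtain ⟨O'', s'', hO'', hl, hr⟩ := hGL F W B x a b e hab hbe O (O' ⊓ pre (pr W) N1) u u'' hO
    (fun t ht => ⟨hO' t ht, hx1⟩)
    (by
      intro h h'
      have h3 := key b h'
      have h4 := hs (hi2 h')
      rw [h3, h4, ha0]
      abel)
  refine ⟨O'', s'', hO'', ?_⟩
  intro t ht h h'
  rcases le_total t b with htb | htb
  · rw [hl t ⟨ht.1, htb⟩ (hO t ⟨ht.1, htb⟩) h]
    exact hu t ⟨ht.1, htb⟩ _ h'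
  · have hm : ((x, t) : cyl W) ∈ O' ⊓ pre (pr W) N1 := ⟨hO' t ⟨htb, ht.2⟩, hx1⟩
    rw [hr t ⟨htb, ht.2⟩ hm h, key t hm, map_add, hu' t ⟨htb, ht.2⟩ _ h']
    have h5 := sm_comp f g ((x, t) : cyl W) (gm A (hi2 hm) s)
    rw [← h5, w]
    have h6 : sm (0 : A ⟶ C) ((x, t) : cyl W) (gm A (hi2 hm) s) = 0 := by
      rw [← gm_ap]
      have : ap (0 : A ⟶ C) (pre (pr W) N1) s = 0 := rfl
      rw [this, map_zero]
    rw [h6, add_zero]

lemma liftP_local {A B C : Sh F (cyl W)} (f : A ⟶ B) (g : B ⟶ C) (w : f ≫ g = 0)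
    (hS : (ShortComplex.mk f g w).ShortExact) {N : Opens W} {x : W} (hx : x ∈ N)
    (c : Sec C (pre (pr W) N)) (t : unitInterval) :
    ∃ J : Set unitInterval, IsOpen J ∧ t ∈ J ∧
      ∀ a b, a ≤ b → Icc a b ⊆ J → LiftP g (x := x) c a b := by
  have hex := (shortExact_iff f g w).1 hS
  have htN : ((x, t) : cyl W) ∈ pre (pr W) N := hx
  obtain ⟨v, hv⟩ := hex.2.1 ((x, t) : cyl W) (gm C htN c)
  obtain ⟨O, hO, u, hu⟩ := exists_gm B v
  obtain ⟨W1, hW1, h1, h2, e⟩ := gm_eq C hO htN (ap g O u) c (by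
    rw [gm_ap, hu]
    exact hv)
  refine ⟨(fun t' : unitInterval => ((x, t') : cyl W)) ⁻¹' (W1 : Set (cyl W)), ?_, hW1, ?_⟩
  · apply W1.isOpen.preimage
    exact Continuous.prodMk continuous_const continuous_id
  · intro a b _ hJ
    refine ⟨W1, rs B h1 u, fun t' ht' => hJ ht', ?_⟩
    intro t' ht' h h'
    rw [← gm_ap, ← rs_ap, e, gm_rs]

theorem vl (hII : T_II) (hGL : T_GL) (hTL : T_TL) : T_VL := by
  intro F _ W A B C f g w hS hPE N x hx c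
  have hP : LiftP g (x := x) c 0 1 := by
    apply hII (fun a b => LiftP g (x := x) c a b)
    · intro a b e hab hbe h1 h2
      exact liftP_trans hGL f g w hS hPE hx c a b e hab hbe h1 h2
    · intro t
      exact liftP_local f g w hS hx c t
  obtain ⟨O, u, hO, hu⟩ := hP
  have hmem : ∀ t : unitInterval, t ∈ Icc (0 : unitInterval) 1 := fun t =>
    ⟨unitInterval.nonneg', unitInterval.le_one'⟩
  have hloc : ∀ t : unitInterval, ∃ (W1 : Opens (cyl W)) (_ : ((x, t) : cyl W) ∈ W1)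
      (h1 : W1 ≤ O) (h2 : W1 ≤ pre (pr W) N), rs C h1 (ap g O u) = rs C h2 c := by
    intro t
    have htN : ((x, t) : cyl W) ∈ pre (pr W) N := hx
    apply gm_eq C (hO t (hmem t)) htN
    rw [gm_ap]
    exact hu t (hmem t) _ htN
  choose Wt hWt h1 h2 he using hloc
  have hs1 : (⨆ t, Wt t) ≤ O := iSup_le h1
  have hs2 : (⨆ t, Wt t) ≤ pre (pr W) N := iSup_le h2
  have hrs : rs C hs1 (ap g O u) = rs C hs2 c := by
    apply sec_ext
    intro y hy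
    obtain ⟨t, ht⟩ := Opens.mem_iSup.1 hy
    rw [gm_rs, gm_rs]
    have h3 := gm_rs C (h1 t) ht (ap g O u)
    have h4 := gm_rs C (h2 t) ht c
    rw [he t] at h3
    exact h3.symm.trans h4
  obtain ⟨N2, hx2, hN2⟩ := hTL W x (⨆ t, Wt t) (fun t => Opens.mem_iSup.2 ⟨t, hWt t⟩)
  have hle : pre (pr W) (N2 ⊓ N) ≤ ⨆ t, Wt t := fun y hy => hN2 hy.1
  refine ⟨N2 ⊓ N, ⟨hx2, hx⟩, inf_le_right, rs B (hle.trans hs1) u, ?_⟩
  rw [← rs_ap, ← rs_rs C hle hs1, hrs, rs_rs]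

end Pool.Agent.H57.AT
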